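import Mathlib

set_option autoImplicit false

/-!
A `T_1` space `X` for which the ring `T''(X)` of real functions continuous on a dense cozero set is
not almost regular.
-/

open Topology Set

namespace Pool.Agent.Results.MP_3eafcc_gt.NotAlmostRegular

/-- The ring `T''(X)`: all functions `f : X → ℝ` for which there is a continuous `g : X → ℝ` such
that the cozero set `{x | g x ≠ 0}` is dense in `X` and `f` is continuous on it, under pointwise
addition and multiplication. -/
def TPP (X : Type) [TopologicalSpace X] : Subring (X → ℝ) where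
  carrier := {f | ∃ g : X → ℝ, Continuous g ∧ Dense {x | g x ≠ 0} ∧ ContinuousOn f {x | g x ≠ 0}}
  mul_mem' := by
    rintro f f' ⟨g, hg, hd, hf⟩ ⟨g', hg', hd', hf'⟩
    have hset : {x | g x * g' x ≠ 0} = {x | g x ≠ 0} ∩ {x | g' x ≠ 0} := by
      ext x; simp
    refine ⟨fun x => g x * g' x, hg.mul hg', ?_, ?_⟩
    · rw [hset]
      exact hd.inter_of_isOpen_left hd' (isOpen_ne_fun hg continuous_const)
    · rw [hset]
      exact (hf.mono inter_subset_left).mul (hf'.mono inter_subset_right)
  one_mem' := ⟨fun _ => 1, continuous_const, by simp, continuousOn_const⟩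
  add_mem' := by
    rintro f f' ⟨g, hg, hd, hf⟩ ⟨g', hg', hd', hf'⟩
    have hset : {x | g x * g' x ≠ 0} = {x | g x ≠ 0} ∩ {x | g' x ≠ 0} := by
      ext x; simp
    refine ⟨fun x => g x * g' x, hg.mul hg', ?_, ?_⟩
    · rw [hset]
      exact hd.inter_of_isOpen_left hd' (isOpen_ne_fun hg continuous_const)
    · rw [hset]
      exact (hf.mono inter_subset_left).add (hf'.mono inter_subset_right)
  zero_mem' := ⟨fun _ => 1, continuous_const, by simp, continuousOn_const⟩
  neg_mem' := by
    rintro f ⟨g, hg, hd, hf⟩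
    exact ⟨g, hg, hd, hf.neg⟩

/-- A commutative ring is almost regular if each element is a unit or a zero divisor. -/
def AlmostRegular (R : Type) [CommRing R] : Prop :=
  ∀ a : R, IsUnit a ∨ ∃ b : R, b ≠ 0 ∧ a * b = 0

namespace Aux

/-- the underlying set: a sequence of isolated points `inl n` and the points `inr n` of a set with
the cofinite topology -/
structure Y where
  /-- the point -/
  pt : ℕ ⊕ ℕ

/-- the isolated points -/
def p (n : ℕ) : Y := ⟨.inl n⟩

/-- the other points -/
def q (n : ℕ) : Y := ⟨.inr n⟩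

/-- open sets -/
def IsOp (U : Set Y) : Prop :=
  ((∀ n, q n ∉ U) ∨ {n | q n ∉ U}.Finite) ∧ (q 0 ∈ U → {n | p n ∉ U}.Finite)

instance : TopologicalSpace Y where
  IsOpen := IsOp
  isOpen_univ := ⟨Or.inr (by simp), fun _ => by simp⟩
  isOpen_inter := by
    rintro U V ⟨hU, hU'⟩ ⟨hV, hV'⟩
    refine ⟨?_, fun h => ?_⟩
    · rcases hU with hU | hU
      · exact Or.inl fun n h => hU n h.1
      · rcases hV with hV | hV
        · exact Or.inl fun n h => hV n h.2
        · refine Or.inr ((hU.union hV).subset ?_)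
          intro n hn
          by_contra h
          rw [mem_union, not_or] at h
          exact hn ⟨not_not.1 h.1, not_not.1 h.2⟩
    · refine ((hU' h.1).union (hV' h.2)).subset ?_
      intro n hn
      by_contra h
      rw [mem_union, not_or] at h
      exact hn ⟨not_not.1 h.1, not_not.1 h.2⟩
  isOpen_sUnion := by
    intro S hS
    refine ⟨?_, ?_⟩
    · by_cases h : ∃ U ∈ S, ∃ n, q n ∈ U
      · obtain ⟨U, hU, n, hn⟩ := h
        rcases (hS U hU).1 with h1 | h1
        · exact absurd hn (h1 n)
        · exact Or.inr (h1.subset fun m hm h2 => hm ⟨U, hU, h2⟩)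
      · push Not at h
        refine Or.inl fun n hn => ?_
        obtain ⟨U, hU, hn⟩ := hn
        exact h U hU n hn
    · rintro ⟨U, hU, h0⟩
      exact ((hS U hU).2 h0).subset fun m hm h2 => hm ⟨U, hU, h2⟩

theorem isOpen_iff (U : Set Y) : IsOpen U ↔ IsOp U := Iff.rfl

theorem q_inj {m n : ℕ} (h : q m = q n) : m = n := by
  simpa [q] using h

theorem p_inj {m n : ℕ} (h : p m = p n) : m = n := by
  simpa [p] using h

theorem q_ne_p (m n : ℕ) : q m ≠ p n := by
  simp [p, q]

theorem cases_pt (x : Y) : (∃ n, x = p n) ∨ ∃ n, x = q n := by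
  obtain ⟨x | x⟩ := x
  · exact Or.inl ⟨x, rfl⟩
  · exact Or.inr ⟨x, rfl⟩

instance : T1Space Y where
  t1 := by
    intro x
    rw [← isOpen_compl_iff, isOpen_iff]
    refine ⟨Or.inr ?_, fun _ => ?_⟩
    · have h : {n | q n ∉ ({x}ᶜ : Set Y)} = {n | q n = x} := by ext n; simp
      rw [h]
      apply Set.Subsingleton.finite
      intro m hm n hn
      exact q_inj (hm.trans hn.symm)
    · have h : {n | p n ∉ ({x}ᶜ : Set Y)} = {n | p n = x} := by ext n; simp
      rw [h]
      apply Set.Subsingleton.finite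
      intro m hm n hn
      exact p_inj (hm.trans hn.symm)

/-- real continuous functions are constant on the points `q n` -/
theorem const (h : Y → ℝ) (hh : Continuous h) (m n : ℕ) : h (q m) = h (q n) := by
  by_contra hne
  obtain ⟨U, V, hU, hV, hmU, hnV, hUV⟩ := t2_separation hne
  have h1 := (hU.preimage hh).1
  have h2 := (hV.preimage hh).1
  rcases h1 with h1 | h1
  · exact h1 m hmU
  rcases h2 with h2 | h2
  · exact h2 n hnV
  have h3 : (univ : Set ℕ).Finite := by
    refine (h1.union h2).subset fun k _ => ?_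
    by_contra h4
    rw [mem_union, not_or] at h4
    exact hUV.le_bot ⟨not_not.1 h4.1, not_not.1 h4.2⟩
  exact infinite_univ h3

theorem isOpen_p (n : ℕ) : IsOpen {p n} := by
  rw [isOpen_iff]
  refine ⟨Or.inl fun m hm => q_ne_p m n hm, fun h => absurd h (q_ne_p 0 n)⟩

theorem isOpen_q : IsOpen {x : Y | ∃ n, n ≠ 0 ∧ x = q n} := by
  rw [isOpen_iff]
  refine ⟨Or.inr ?_, ?_⟩
  · refine (finite_singleton 0).subset fun m hm => ?_
    by_contra h
    exact hm ⟨m, h, rfl⟩
  · rintro ⟨n, hn, h⟩
    exact absurd (q_inj h).symm hn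

/-- the function -/
noncomputable def f (x : Y) : ℝ :=
  match x.pt with
  | .inl n => 1 / ((n : ℝ) + 1)
  | .inr _ => 0

theorem f_p (n : ℕ) : f (p n) = 1 / ((n : ℝ) + 1) := rfl

theorem f_q (n : ℕ) : f (q n) = 0 := rfl

theorem f_cont : Continuous f := by
  rw [continuous_def]
  intro U hU
  rw [isOpen_iff]
  refine ⟨?_, ?_⟩
  · by_cases h : (0 : ℝ) ∈ U
    · refine Or.inr ?_
      have : {n | q n ∉ f ⁻¹' U} = ∅ := by
        ext n
        simp [f_q, h]
      rw [this]
      exact finite_empty
    · exact Or.inl fun n hn => h (by simpa [f_q] using hn)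
  · intro h
    have h0 : (0 : ℝ) ∈ U := by simpa [f_q] using h
    have h1 : Filter.Tendsto (fun n : ℕ => f (p n)) Filter.atTop (𝓝 0) :=
      tendsto_one_div_add_atTop_nhds_zero_nat
    have h2 := h1.eventually (hU.mem_nhds h0)
    rw [Filter.eventually_atTop] at h2
    obtain ⟨N, hN⟩ := h2
    refine (finite_lt_nat N).subset fun n hn => ?_
    by_contra h3
    exact hn (hN n (not_lt.1 h3))

end Aux

open Aux

/-- **Main result.** There is a `T_1` space `X` whose ring `T''(X)` is not almost regular: some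
element of `T''(X)` is neither a unit nor a zero divisor. -/
theorem result : ∃ (X : Type) (_ : TopologicalSpace X), T1Space X ∧ ¬ AlmostRegular (TPP X) := by
  refine ⟨Y, inferInstance, inferInstance, fun hreg => ?_⟩
  have hf : f ∈ TPP Y := ⟨fun _ => 1, continuous_const, by simp, f_cont.continuousOn⟩
  rcases hreg ⟨f, hf⟩ with h | h
  · obtain ⟨b, hb⟩ := h.exists_right_inv
    have h1 := congrFun (congrArg Subtype.val hb) (q 0)
    have h2 : f (q 0) * (b : Y → ℝ) (q 0) = 1 := h1
    rw [f_q, zero_mul] at h2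
    exact zero_ne_one h2
  · obtain ⟨⟨b, g, hg, hd, hb⟩, hb0, hfb⟩ := h
    apply hb0
    have h1 : ∀ x, f x * b x = 0 := fun x => congrFun (congrArg Subtype.val hfb) x
    have hbp : ∀ n, b (p n) = 0 := by
      intro n
      have h2 := h1 (p n)
      rw [f_p] at h2
      rcases mul_eq_zero.1 h2 with h3 | h3
      · exact absurd h3 (by positivity)
      · exact h3
    have huniv : {x | g x ≠ 0} = univ := by
      ext x
      simp only [mem_ofPred_eq, mem_univ, iff_true]
      rcases cases_pt x with ⟨n, rfl⟩ | ⟨n, rfl⟩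
      · obtain ⟨y, hy, hy'⟩ := hd.inter_open_nonempty _ (isOpen_p n) ⟨p n, rfl⟩
        rw [mem_singleton_iff] at hy
        rw [← hy]
        exact hy'
      · obtain ⟨y, ⟨m, hm, hy⟩, hy'⟩ := hd.inter_open_nonempty _ isOpen_q ⟨q 1, 1, one_ne_zero, rfl⟩
        rw [const g hg n m, ← hy]
        exact hy'
    rw [huniv, continuousOn_univ] at hb
    have hbq : b (q 0) = 0 := by
      by_contra h2
      have h3 : IsOpen (b ⁻¹' {0}ᶜ) := isOpen_compl_singleton.preimage hb
      have h4 := h3.2 h2
      have h5 : {n | p n ∉ b ⁻¹' {0}ᶜ} = univ := by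
        ext n
        simp [hbp n]
      rw [h5] at h4
      exact infinite_univ h4
    ext x
    show b x = 0
    rcases cases_pt x with ⟨n, rfl⟩ | ⟨n, rfl⟩
    · exact hbp n
    · rw [const b hb n 0, hbq]

end Pool.Agent.Results.MP_3eafcc_gt.NotAlmostRegular
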